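import Pool.Agent.W601.SQ.Stm

/-!
# Sets of admissible values for sequences of the second kind
-/

set_option autoImplicit false
open scoped Classical Cardinal
open Filter Topology

namespace Pool.Agent.W690.SQ

open Pool.Agent.W601.SQ

noncomputable section

/-- The exact solution on the points `a j`. -/
def cs (t : ℕ → (ℝ →₀ ℤ)) (a : ℕ → ℝ) (J : Set ℕ) : ℕ → ℝ
  | j => (tg J j - ∑ i : Fin j, (t j (a i) : ℝ) * cs t a J i) / (t j (a j) : ℝ)
termination_by j => j
decreasing_by exact i.isLt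

/-- The exact solution. -/
def y0 (t : ℕ → (ℝ →₀ ℤ)) (a : ℕ → ℝ) (J : Set ℕ) (β : ℝ) : ℝ :=
  if h : ∃ j, a j = β then cs t a J h.choose else 0

theorem nm_le (x : ℝ) : nm x ≤ |x| := by
  unfold nm
  rw [UnitAddCircle.norm_eq]
  simpa using round_le x 0

theorem cs_eq (t : ℕ → (ℝ →₀ ℤ)) (a : ℕ → ℝ) (J : Set ℕ) (ha : ∀ j, t j (a j) ≠ 0) (j : ℕ) :
    ∑ i ∈ Finset.range (j + 1), (t j (a i) : ℝ) * cs t a J i = tg J j := by
  rw [Finset.sum_range_succ]
  have h : cs t a J j =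
      (tg J j - ∑ i : Fin j, (t j (a i) : ℝ) * cs t a J i) / (t j (a j) : ℝ) := by
    rw [cs]
  rw [h, mul_div_cancel₀]
  · rw [Finset.sum_range]
    ring
  · exact_mod_cast ha j

theorem y0_eq (t : ℕ → (ℝ →₀ ℤ)) (a : ℕ → ℝ) (J : Set ℕ) (ha : Function.Injective a) (j : ℕ) :
    y0 t a J (a j) = cs t a J j := by
  have h : ∃ i, a i = a j := ⟨j, rfl⟩
  rw [y0, dif_pos h, ha h.choose_spec]

theorem ip_y0 (t : ℕ → (ℝ →₀ ℤ)) (a : ℕ → ℝ) (J : Set ℕ) (ha : Function.Injective a)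
    (h1 : ∀ j, t j (a j) ≠ 0) (h2 : ∀ i j, i < j → t i (a j) = 0) (j : ℕ) :
    ip (t j) (y0 t a J) = tg J j := by
  rw [← cs_eq t a J h1 j]
  unfold ip
  rw [Finsupp.sum]
  have e1 : ∑ β ∈ (t j).support, ((t j β : ℤ) : ℝ) * y0 t a J β =
      ∑ β ∈ (t j).support ∪ (Finset.range (j + 1)).image a, ((t j β : ℤ) : ℝ) * y0 t a J β := by
    refine Finset.sum_subset Finset.subset_union_left fun β _ hβ => ?_
    rw [Finsupp.notMem_support_iff.1 hβ]
    simp
  have e2 : ∑ β ∈ (Finset.range (j + 1)).image a, ((t j β : ℤ) : ℝ) * y0 t a J β =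
      ∑ β ∈ (t j).support ∪ (Finset.range (j + 1)).image a, ((t j β : ℤ) : ℝ) * y0 t a J β := by
    refine Finset.sum_subset Finset.subset_union_right fun β _ hβ => ?_
    by_cases h : ∃ i, a i = β
    · obtain ⟨i, rfl⟩ := h
      have hi : j < i := by
        by_contra hc
        exact hβ (Finset.mem_image.2 ⟨i, Finset.mem_range.2 (by omega), rfl⟩)
      rw [h2 j i hi]
      simp
    · rw [y0, dif_neg h, mul_zero]
  rw [e1, ← e2, Finset.sum_image fun x _ y _ h => ha h]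
  refine Finset.sum_congr rfl fun i _ => ?_
  rw [y0_eq t a J ha]

theorem sum_half {s : Finset ℝ} (rk : ℝ → ℕ) (h : Set.InjOn rk s) :
    ∑ β ∈ s, (1 / 2 : ℝ) ^ (rk β + 4) ≤ 1 / 8 := by
  have e : ∑ β ∈ s, (1 / 2 : ℝ) ^ (rk β + 4) = ∑ n ∈ s.image rk, (1 / 2 : ℝ) ^ (n + 4) := by
    rw [Finset.sum_image h]
  rw [e]
  have hs : Summable fun n : ℕ => (1 / 2 : ℝ) ^ n :=
    summable_geometric_of_lt_one (by norm_num) (by norm_num)
  have e2 : ∑ n ∈ s.image rk, (1 / 2 : ℝ) ^ (n + 4) =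
      (1 / 16) * ∑ n ∈ s.image rk, (1 / 2 : ℝ) ^ n := by
    rw [Finset.mul_sum]
    refine Finset.sum_congr rfl fun n _ => ?_
    rw [pow_add]
    ring
  rw [e2]
  have e3 : ∑ n ∈ s.image rk, (1 / 2 : ℝ) ^ n ≤ ∑' n : ℕ, (1 / 2 : ℝ) ^ n :=
    hs.sum_le_tsum _ fun n _ => by positivity
  rw [tsum_geometric_two] at e3
  linarith

theorem subc2 : S_SUBC2 := by
  rintro t ⟨hC, a, h1, h2⟩ J
  have ha : Function.Injective a := by
    intro i j hij
    rcases lt_trichotomy i j with h | h | h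
    · exact absurd (hij ▸ h2 i j h) (h1 i)
    · exact h
    · exact absurd (hij ▸ h2 j i h) (h1 j)
  choose C hC using hC
  have hC0 : ∀ β, (0 : ℝ) ≤ C β := fun β => by
    exact_mod_cast (abs_nonneg _).trans (hC β 0)
  set B : Set ℝ := ⋃ j, ((t j).support : Set ℝ) with hB
  have hBc : B.Countable := Set.countable_iUnion fun j => (t j).support.finite_toSet.countable
  obtain ⟨rk, hrk⟩ := Set.countable_iff_exists_injOn.1 hBc
  let δ : ℝ → ℝ := fun β => (1 / 2 : ℝ) ^ (rk β + 4) / (C β + 1)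
  have hδ : ∀ β, 0 < δ β := fun β => by
    have := hC0 β
    positivity
  refine ⟨fun β => if β ∈ B then Set.Icc (y0 t a J β - δ β) (y0 t a J β + δ β) else Set.univ,
    fun β => ?_, ?_, fun y hy j => ?_⟩
  · dsimp only
    split_ifs
    · rw [Cardinal.mk_Icc_real]
      linarith [hδ β]
    · rw [Cardinal.mk_univ_real]
  · refine hBc.mono fun β hβ => ?_
    by_contra hc
    exact hβ (if_neg hc)
  · rw [← ip_y0 t a J ha h1 h2 j]
    refine (nm_le _).trans ?_
    have e : ip (t j) y - ip (t j) (y0 t a J) =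
        ∑ β ∈ (t j).support, ((t j β : ℤ) : ℝ) * (y β - y0 t a J β) := by
      unfold ip
      rw [Finsupp.sum, Finsupp.sum, ← Finset.sum_sub_distrib]
      exact Finset.sum_congr rfl fun β _ => by ring
    rw [e]
    refine (Finset.abs_sum_le_sum_abs _ _).trans ?_
    have hsub : ((t j).support : Set ℝ) ⊆ B := Set.subset_iUnion (fun j => ((t j).support : Set ℝ)) j
    refine le_trans (Finset.sum_le_sum fun β hβ => ?_) (sum_half rk (hrk.mono hsub))
    have hβB : β ∈ B := hsub hβ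
    have h3 := hy β
    dsimp only at h3
    rw [if_pos hβB, Set.mem_Icc] at h3
    have h4 : |y β - y0 t a J β| ≤ δ β := abs_le.2 ⟨by linarith [h3.1], by linarith [h3.2]⟩
    have h5 : |((t j β : ℤ) : ℝ)| ≤ C β := by
      have := hC β j
      exact_mod_cast this
    rw [abs_mul]
    have h6 : |((t j β : ℤ) : ℝ)| * |y β - y0 t a J β| ≤ (C β + 1) * δ β :=
      mul_le_mul (by linarith) h4 (abs_nonneg _) (by linarith [hC0 β])
    refine h6.trans (le_of_eq ?_)
    have : (C β : ℝ) + 1 ≠ 0 := by linarith [hC0 β]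
    simp only [δ]
    field_simp

end

end Pool.Agent.W690.SQ
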